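import Pool.Agent.Helper23.NS.Final

/-! For every `g ≥ 1` there are more numerical semigroups of genus `g + 1` than of genus `g`. -/

namespace Pool.Agent.Results.MP_56bc24_co.Monotone

/-- The numerical semigroups of genus `g`: the sets `S` of natural numbers containing `0`, closed
under addition, whose complement is finite with exactly `g` elements. -/
def semigroupsOfGenus (g : ℕ) : Set (Set ℕ) :=
  {S | 0 ∈ S ∧ (∀ a ∈ S, ∀ b ∈ S, a + b ∈ S) ∧ Sᶜ.Finite ∧ Sᶜ.ncard = g}

/-- `n_{g+1} > n_g` for every `g ≥ 1` (and both numbers are finite). -/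
theorem result (g : ℕ) (hg : 1 ≤ g) :
    (semigroupsOfGenus g).Finite ∧ (semigroupsOfGenus (g + 1)).Finite ∧
      (semigroupsOfGenus g).ncard < (semigroupsOfGenus (g + 1)).ncard :=
  ⟨Helper23.NS.nsg_finite g, Helper23.NS.nsg_finite (g + 1), Helper23.NS.main g hg⟩

end Pool.Agent.Results.MP_56bc24_co.Monotone
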